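import Pool.Agent.NNe.Chk
import Pool.Agent.NNe.Slots

set_option linter.all false
set_option maxRecDepth 1000000
namespace Pool.Agent.NNr.R11_4_7_9

open Pool.Agent.NNe

noncomputable def SI0_0 : Nat := (nat_lit 0xc0300c0300c0300c0300c0300c02008020080200401004010040000000)
noncomputable def SW0_0 : Nat := (nat_lit 0xb805802a014006001c00c00500200080020130058028006000009004402000f004803801a008)
noncomputable def RV0_0 : Nat := (nat_lit 0x18c00c28600920400818200c08a0dc08a01328600e18201110000418c00e08a01708a04e20401718202508a04a08a03d08a07328602318203610000f08a0d618c02108a09008a09e)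
noncomputable def CO0_0 : Nat := (nat_lit 0x2a80602a80302a80202a80102a7450288850288830288810288800280c60280c50269c50265420265410249c50241c500aa0500aa0300aa0100aa0000a745002b06002b05002745)
noncomputable def Y0_0_1_0 : Nat := (nat_lit 0xe0000000000004000000000000180000000000000000000000000e0000000000003000000000000380000000000000000000000000e0000000000003)
noncomputable def Y0_0_2_3 : Nat := (nat_lit 0xffe000000000063000000000000328000000000000000000000009de00000000000e800000000003e0000000000018000000000000f800000000000600)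
noncomputable def C0_0 : Cd := (Cd.mk (nat_lit 24) (nat_lit 5) (nat_lit 1025) SI0_0 SW0_0 RV0_0 CO0_0 (Sl.cons (Sd.mk (nat_lit 0) (nat_lit 0) (nat_lit 0) (nat_lit 3) (Sb.cons (nat_lit 8) (nat_lit 0) (nat_lit 3) Sb.nil) (Bl.c Y0_0_1_0 (nat_lit 10) (nat_lit 1) Bl.nil)) (Sl.cons (Sd.mk (nat_lit 2) (nat_lit 0) (nat_lit 3) (nat_lit 5) (Sb.cons (nat_lit 8) (nat_lit 0) (nat_lit 5) Sb.nil) (Bl.r Y0_0_1_0 (nat_lit 0) Bl.nil)) (Sl.cons (Sd.mk (nat_lit 9) (nat_lit 8) (nat_lit 8) (nat_lit 5) (Sb.cons (nat_lit 0) (nat_lit 0) (nat_lit 2) (Sb.cons (nat_lit 8) (nat_lit 2) (nat_lit 3) Sb.nil)) (Bl.r Y0_0_2_3 (nat_lit 3) Bl.nil)) (Sl.cons (Sd.mk (nat_lit 10) (nat_lit 8) (nat_lit 13) (nat_lit 11) (Sb.cons (nat_lit 0) (nat_lit 0) (nat_lit 6) (Sb.cons (nat_lit 8) (nat_lit 6) (nat_lit 5) Sb.nil)) (Bl.c Y0_0_2_3 (nat_lit 10) (nat_lit 2) Bl.nil)) Sl.nil)))))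
noncomputable def SI0_1 : Nat := (nat_lit 0x1405014050140501405014050140501405010040100401004010040100300c0300c0300c0300c030080200802008020080200802008020080100401004010040100401004000000000000000000000000000)
noncomputable def SW0_1 : Nat := (nat_lit 0x8204001f80f806602a0108080028013009004401400901e80c8062029014009c03e01000400f006002f017009804a01e007801c07603a016809003a01c00d806801c006002801000603901c00dc06c02c011806401a00c00100d406802b011006002e01600a802c002000)
noncomputable def RV0_1 : Nat := (nat_lit 0x18c00d28600a20400918200d08a0dd08a0e618c01208a01b08a01428600f18201210000518c00f08a01808a04f20401818202608a03928601918202708a04108a04b08a03e08a06a08a05728601f18202e18203110000a08a05e08a06608a05a18c02708a09608a0a408a0af18c00028600020400018200008a0ba08a00028600220400318200308a07428602418203710001008a0d708a0e008a07f18203e10001408a07a18c02208a09108a09f08a0a988a027a86011a0400c98201508a0b3a0401098201a)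
noncomputable def CO0_1 : Nat := (nat_lit 0x2a80602a80302a80202a80102a7450297850290c60290c50288850288830288810288800280c60280c50269c50265420265410255850255830255810251c50249c50241c5016ac50166450166430166410156810156800152c5014ac50142c5012b06012b05012745011785011006011003011002011001010b8501004501004301004201004100aa0500aa0300aa0100aa0000a7450097850092c5008a81008a800082c5002b06002b05002745001785001105001103001102001101000b85000142000141)
noncomputable def Y0_1_1_0 : Nat := (nat_lit 0x3ef800000000000480000000000000000000000000000000000001e2000000000000000000000000f9a000000000000800000000003ef800000000000000000000000fbe000000000000000000000003ef800000000000000000000000780000000000000000000000003e4000000000000200000000000fb00000000000000)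
noncomputable def Y0_1_2_3 : Nat := (nat_lit 0x31e000000000000000000000000df80000000000020000000000037e000000000000800000000000d180000000000000000000000030600000000000000000000000000000000000000000000000000306000000000008000000000000c180000000000000000000000037e000000000000800000000000df800000000000200000000000000000000000000000000000000c380000000000200000000000031e0000000000008)
noncomputable def Y0_1_4_5 : Nat := (nat_lit 0x3de000000000000000000000000b08000000000018400000000002ca000000000000000000000017f7800000000020100000000000000000000000000000000000001b2800000000000000000000005fde000000000080000000000017f7800000000020000000000005fde0000000000800)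
noncomputable def C0_1 : Cd := (Cd.mk (nat_lit 66) (nat_lit 6) (nat_lit 546) SI0_1 SW0_1 RV0_1 CO0_1 (Sl.cons (Sd.mk (nat_lit 0) (nat_lit 0) (nat_lit 0) (nat_lit 11) (Sb.cons (nat_lit 0) (nat_lit 0) (nat_lit 3) (Sb.cons (nat_lit 4) (nat_lit 3) (nat_lit 5) (Sb.cons (nat_lit 8) (nat_lit 8) (nat_lit 3) Sb.nil))) (Bl.c Y0_1_1_0 (nat_lit 20) (nat_lit 1) Bl.nil)) (Sl.cons (Sd.mk (nat_lit 2) (nat_lit 0) (nat_lit 11) (nat_lit 10) (Sb.cons (nat_lit 0) (nat_lit 0) (nat_lit 3) (Sb.cons (nat_lit 4) (nat_lit 3) (nat_lit 2) (Sb.cons (nat_lit 8) (nat_lit 5) (nat_lit 5) Sb.nil))) (Bl.r Y0_1_1_0 (nat_lit 0) Bl.nil)) (Sl.cons (Sd.mk (nat_lit 4) (nat_lit 4) (nat_lit 21) (nat_lit 13) (Sb.cons (nat_lit 0) (nat_lit 0) (nat_lit 5) (Sb.cons (nat_lit 4) (nat_lit 5) (nat_lit 5) (Sb.cons (nat_lit 8) (nat_lit 10) (nat_lit 3) Sb.nil))) (Bl.r Y0_1_2_3 (nat_lit 3) Bl.nil)) (Sl.cons (Sd.mk (nat_lit 5) (nat_lit 4) (nat_lit 34) (nat_lit 9) (Sb.cons (nat_lit 0) (nat_lit 0) (nat_lit 2) (Sb.cons (nat_lit 4) (nat_lit 2) (nat_lit 3) (Sb.cons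 (nat_lit 8) (nat_lit 5) (nat_lit 4) Sb.nil))) (Bl.c Y0_1_2_3 (nat_lit 26) (nat_lit 2) Bl.nil)) (Sl.cons (Sd.mk (nat_lit 9) (nat_lit 8) (nat_lit 43) (nat_lit 9) (Sb.cons (nat_lit 0) (nat_lit 0) (nat_lit 2) (Sb.cons (nat_lit 4) (nat_lit 2) (nat_lit 4) (Sb.cons (nat_lit 8) (nat_lit 6) (nat_lit 3) Sb.nil))) (Bl.r Y0_1_4_5 (nat_lit 5) Bl.nil)) (Sl.cons (Sd.mk (nat_lit 10) (nat_lit 8) (nat_lit 52) (nat_lit 14) (Sb.cons (nat_lit 0) (nat_lit 0) (nat_lit 6) (Sb.cons (nat_lit 4) (nat_lit 6) (nat_lit 3) (Sb.cons (nat_lit 8) (nat_lit 9) (nat_lit 5) Sb.nil))) (Bl.c Y0_1_4_5 (nat_lit 18) (nat_lit 4) Bl.nil)) Sl.nil)))))))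
noncomputable def SI0_2 : Nat := (nat_lit 0x300c0300c0300802008020080200802004010040100400000000000000000)
noncomputable def SW0_2 : Nat := (nat_lit 0x1800b804c01600600b0048022010005001400800300a803c012008001005001c00d006001c002000)
noncomputable def RV0_2 : Nat := (nat_lit 0x18203210000b08a05f08a06708a05b08a0b018c00120400118200108a0bb08a00120400418200408a0e108a08018203f10001508a07b08a0aa88a028a0400d98201608a0b4a0401198201b)
noncomputable def CO0_2 : Nat := (nat_lit 0x156810156800152c5014ac50142c5011785011006011002011001010b850100450100420100410097850092c5008a81008a800082c5001785001105001102001101000b85000142000141)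
noncomputable def Y0_2_1_0 : Nat := (nat_lit 0xda000000000002000000000000368000000000013400000000000c8000000000002000000000000320000000000000000000000000da000000000004d)
noncomputable def Y0_2_2_3 : Nat := (nat_lit 0xf8000000000001c000000000000e0000000000007000000000000000000000000000000000000000e0000000000007000000000000f8000000000001c000000000003e0000000000017000000000000000000000000000000000000000e0000000000007)
noncomputable def C0_2 : Cd := (Cd.mk (nat_lit 25) (nat_lit 7) (nat_lit 67) SI0_2 SW0_2 RV0_2 CO0_2 (Sl.cons (Sd.mk (nat_lit 0) (nat_lit 0) (nat_lit 0) (nat_lit 7) (Sb.cons (nat_lit 0) (nat_lit 0) (nat_lit 3) (Sb.cons (nat_lit 4) (nat_lit 3) (nat_lit 4) Sb.nil)) (Bl.c Y0_2_1_0 (nat_lit 10) (nat_lit 1) Bl.nil)) (Sl.cons (Sd.mk (nat_lit 2) (nat_lit 0) (nat_lit 7) (nat_lit 5) (Sb.cons (nat_lit 0) (nat_lit 0) (nat_lit 3) (Sb.cons (nat_lit 4) (nat_lit 3) (nat_lit 2) Sb.nil)) (Bl.r Y0_2_1_0 (nat_lit 0) Bl.nil)) (Sl.cons (Sd.mk (nat_lit 4) (nat_lit 4) (nat_lit 12) (nat_lit 8) (Sb.cons (nat_lit 0) (nat_lit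 0) (nat_lit 4) (Sb.cons (nat_lit 4) (nat_lit 4) (nat_lit 4) Sb.nil)) (Bl.r Y0_2_2_3 (nat_lit 3) Bl.nil)) (Sl.cons (Sd.mk (nat_lit 5) (nat_lit 4) (nat_lit 20) (nat_lit 5) (Sb.cons (nat_lit 0) (nat_lit 0) (nat_lit 2) (Sb.cons (nat_lit 4) (nat_lit 2) (nat_lit 3) Sb.nil)) (Bl.c Y0_2_2_3 (nat_lit 16) (nat_lit 2) Bl.nil)) Sl.nil)))))
noncomputable def SI0_3 : Nat := (nat_lit 0x501405014050140501404010040100400c0300c0300c020080200802008010040100401004010040100000000000000000000)
noncomputable def SW0_3 : Nat := (nat_lit 0x1b00b005402000f007001c00c01a00c805001a005014008003e00c002009c04c01e005800c004025012008c03a018009802801200101100840380170090044010000)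
noncomputable def RV0_3 : Nat := (nat_lit 0x8a0e718c01308a01c08a01518201310000618c01008a01908a03a18202808a04208a04c08a03f08a06b08a05818202f08a06808a05c18c02808a09708a0a508a0bc08a00218200508a07518203810001108a0d808a0e208a08118204010001608a07c18c02308a09208a0a008a0ab88a02998201708a0b598201c)
noncomputable def CO0_3 : Nat := (nat_lit 0x297850290c60290c50288850288810288800280c60280c50255850255810251c50249c50241c5016ac5016645016641014ac50142c5012b06012b05012745010b8501004501004100aa0500aa0100aa0000a7450097850092c5008a81008a800082c5002b06002b05002745001785001105001101000b85000141)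
noncomputable def Y0_3_1_0 : Nat := (nat_lit 0x34000000000000000000000000000000000000000000000000000340000000000008000000000000d0000000000000000000000000c4000000000000000000000000310000000000000000000000000000000000000000000000000003d0000000000002000000000000f40000000000000)
noncomputable def Y0_3_2_3 : Nat := (nat_lit 0x6000000000000000000000000018000000000000000000000000360000000000000000000000000d8000000000000000000000000000000000000000)
noncomputable def Y0_3_4_5 : Nat := (nat_lit 0x2a0000000000000000000000000000000000000000000000000002a0000000000000000000000005a80000000000000000000000016a0000000000000)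
noncomputable def C0_3 : Cd := (Cd.mk (nat_lit 41) (nat_lit 8) (nat_lit 278) SI0_3 SW0_3 RV0_3 CO0_3 (Sl.cons (Sd.mk (nat_lit 0) (nat_lit 0) (nat_lit 0) (nat_lit 8) (Sb.cons (nat_lit 0) (nat_lit 0) (nat_lit 2) (Sb.cons (nat_lit 4) (nat_lit 2) (nat_lit 3) (Sb.cons (nat_lit 8) (nat_lit 5) (nat_lit 3) Sb.nil))) (Bl.c Y0_3_1_0 (nat_lit 18) (nat_lit 1) Bl.nil)) (Sl.cons (Sd.mk (nat_lit 2) (nat_lit 0) (nat_lit 8) (nat_lit 9) (Sb.cons (nat_lit 0) (nat_lit 0) (nat_lit 3) (Sb.cons (nat_lit 4) (nat_lit 3) (nat_lit 2) (Sb.cons (nat_lit 8) (nat_lit 5) (nat_lit 4) Sb.nil))) (Bl.r Y0_3_1_0 (nat_lit 0) Bl.nil)) (Sl.cons (Sd.mk (nat_lit 4) (nat_lit 4) (nat_lit 17) (nat_lit 6) (Sb.cons (nat_lit 0) (nat_lit 0) (nat_lit 3) (Sb.cons (nat_lit 8) (nat_lit 3) (nat_lit 3) Sb.nil)) (Bl.r Y0_3_2_3 (nat_lit 3) Bl.nil)) (Sl.cons (Sd.mk (nat_lit 5) (nat_lit 4) (nat_lit 23) (nat_lit 5) (Sb.cons (nat_lit 0) (nat_lit 0) (nat_lit 2) (Sb.cons (nat_lit 8) (nat_lit 2) (nat_lit 3) Sb.nil)) (Bl.c Y0_3_2_3 (nat_lit 12) (nat_lit 2) Bl.nil)) (Sl.cons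 (Sd.mk (nat_lit 9) (nat_lit 8) (nat_lit 28) (nat_lit 5) (Sb.cons (nat_lit 0) (nat_lit 0) (nat_lit 2) (Sb.cons (nat_lit 4) (nat_lit 2) (nat_lit 3) Sb.nil)) (Bl.r Y0_3_4_5 (nat_lit 5) Bl.nil)) (Sl.cons (Sd.mk (nat_lit 10) (nat_lit 8) (nat_lit 33) (nat_lit 8) (Sb.cons (nat_lit 0) (nat_lit 0) (nat_lit 5) (Sb.cons (nat_lit 4) (nat_lit 5) (nat_lit 3) Sb.nil)) (Bl.c Y0_3_4_5 (nat_lit 10) (nat_lit 4) Bl.nil)) Sl.nil)))))))
noncomputable def SI0_4 : Nat := (nat_lit 0x400)
noncomputable def SW0_4 : Nat := (nat_lit 0x1)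
noncomputable def RV0_4 : Nat := (nat_lit 0x8a07d08a0b6)
noncomputable def CO0_4 : Nat := (nat_lit 0x82c5000b85)
noncomputable def C0_4 : Cd := (Cd.mk (nat_lit 2) (nat_lit 10) (nat_lit 10) SI0_4 SW0_4 RV0_4 CO0_4 (Sl.cons (Sd.mk (nat_lit 0) (nat_lit 0) (nat_lit 0) (nat_lit 1) (Sb.cons (nat_lit 0) (nat_lit 0) (nat_lit 1) Sb.nil) Bl.nil) (Sl.cons (Sd.mk (nat_lit 2) (nat_lit 0) (nat_lit 1) (nat_lit 1) (Sb.cons (nat_lit 0) (nat_lit 0) (nat_lit 1) Sb.nil) Bl.nil) Sl.nil)))
noncomputable def SI0_5 : Nat := (nat_lit 0x20080200802008020080200802008020080200802008020080200802008020080200802008020080200701c0701c0701c0701c0701c0701c0601806018060180601806018060180601806018060180601806018060180601806018060180601806018060180601806018060180601806018060180601806018050140501405014050140501405014050140501405014050140501405014050140501404010040100401004010040100401004010040100401004010040100401004010040100400c0300c0300c0300c0300c0300c0300c0300c0300c0300c0300c0300c0300c0300c0300c02008020080200802008020080200802008020080100401004010040100401004010040100401004010040100401004010000000000000000000000000000000000000000)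
noncomputable def SW0_5 : Nat := (nat_lit 0x11808b04501b40e006c03581a80de06e03481a00ce066028014c09e04e029014409a04c025812806c03501a009804a024007803801a08904401940c804902400cc0640230110030016084041821c10408104001fc10c08503f01f40f807b03d01800c605f02f01880c205d02e016c0b4044023810c084041023011408003f01f00f4062030017807804201d00e006c04001f00d006403001700500240100ed07603ac1980cb05f02e41700c005f82f41780bb05d02dc16c0b505a02cc07802e016805802a014009801c00c0e907283901d40e807383981c60e207083801940c905882b815a0b205802bc1580ab05502a407603a01c80b002400506f036c1b40df06e83701b20d806b83581900c7053828c1440a805302941480a1050027c13c07902c81600ae01100203541a80d3063031413a09c04d81e00ee056008000c00400100003481a20d0062030c13209504a026813009704b024c12409104801d80ea074039815407002b067833819a0c2060823c11c08d03901c40a803701500a4050027)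
noncomputable def RV0_5 : Nat := (nat_lit 0x8a08c18c01d08a02608a0df08a08908a07928602818203c18c01a08a02308a01128600c20400b18200f08a0ea08a08818203d10001318c01908a02208a01228600d18201010000308a08718c01808a02108a08a18c01b08a02408a08518c01608a01f08a07008a05308a06508a04908a06408a04808a06308a04708a06e08a05108a06108a04518c02b08a09a88a03688a02ba86013a0400f98201918c00a08a00f18c00238800028600120400218200208a0a888a033a0401398201e18c00708a00c08a00428600420400618200708a0b288a03288a02ca8601498201f18c00608a00b08a00528600518200810000088a03118c00508a00a08a0bf88a03488a02da8601598202018c00808a00d08a00628600618200910000188a02f18c00308a00808a0ed18c03508a0d208a0e908a0de08a0d518c03208a0cf18c01508a01e08a01028600b20400a18200e18c00b38800128600820400718200b08a0e818c01408a01d08a01628601018201410000718c01108a01a08a0cc18c02f08a0c408a05008a03c28601b18202a08a03828601820401518202308a0ca08a0c808a0c618c02d08a0c208a04420401618202408a03728601720401418202208a03b28601a18202908a04308a04d08a04008a0cb18c02e08a0c308a06d18203310000c08a05528601d18202c10000908a0c908a0c708a0c518c02c08a0c108a06008a05628601e18202d08a05428601c18202b10000808a06c08a05928602018203008a06908a05d08a0be18c02a08a09908a0b108a0a708a09d18c02008a08f18c02908a09808a0a608a0bd08a00328600320400518200608a0eb18c03308a0d008a0e408a0da08a0d318c03008a0cd08a08308a07728602618203a08a07128602118203410000d08a07628602518203910001208a0d908a0e308a08208a0b818c02508a09408a0ad08a0a208a09b18c01e08a08d18c02408a09308a0a108a0ac88a02aa86012a0400e982018)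
noncomputable def CO0_5 : Nat := (nat_lit 0x3aac503a8c603a8c503a74503a6c503a64503a64303a64103a4c603a4c503a44503a44303a44203a4410397850396c50396810396800394c60394c50394850394830394810394800392c50390c60390c5038ac50388c60388c50382c50380c60380c5036ac50369c50366c50365c50356c50355c50352c50351c5034ac50349c50342c50341c5032b06032b050329c50329050329030329020329010328c60328c50328060328040328030328020328010327450325c50325420325410324c60324c50324450324430324420324410317850315c50315850315830315810314c60314c50314850314830314810314800311c50310c60310c5030b850309c50309850309830309810308c60308c50308850308830308810308800301c50300c60300c502bb8502bb0602bb0502b78502b74502b34502b30602b30502b0c602b0c502b04502b04302b04202b04102b00602b00402b00302b00202b0010297850290c60290c50288850288830288810288800280c60280c5027b85027b06027b050279c50279850279830279810279050279030279020279010277850277450273450273060273050271c50271420271410271050271030271020271010255850255830255810251c50249c50241c5017b85017b06017b05017ac5017a81017a80017a05017a03017a01017a000177850177450173450173060173050172c5017245017243017241017205017203017201017200016ac5016645016643016641014ac50142c5013b85013b06013b05013785013745013345013306013305012b06012b05012745010b8501004501004301004201004100bb8500bb0600bb0500b78500b74500b34500b30600b30500b2c500b24500b24300b24100b20500b20300b20100b20000aa0500aa0300aa0100aa0000a7450097850092c5003b85003b06003b05003785003745003345003306003305002b06002b05002745001785001105001103001102001101)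
noncomputable def Y0_5_1_0 : Nat := (nat_lit 0x1fe0000000000001000000000007d8000000000000000000000001fe0000000000003000000000007f8000000000000400000000001fe0000000000002000000000007f8000000000000800000000001f60000000000000000000000007f8000000000000c00000000001fe0000000000000000000000007f8000000000000000000000000f00000000000000000000000007d8000000000000800000000001fe0000000000000000000000003c0000000000000000000000001f60000000000002000000000007f80000000000000000000001fe3e0000000002d000000000005e8c00000000000000000000001fe3600000000000020000000007f8f8000000003fc00000000001fe3e00000000000000000000007ff000000000000000000000001ffc00000000000000)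
noncomputable def Y0_5_2_3 : Nat := (nat_lit 0x1f80000000000050000000000006e0000000000033000000000001f80000000000050000000000007e0000000000014000000000001f80000000000050000000000007e0000000000014000000000001b800000000000cc000000000007e0000000000014000000feffb6180000002000000000003fffff860000000880040000000fffffe180000002200100000003ffffff80000000880040000000ffffffe00000000000000000002d9ee4e00000000880040000000feffb7a00000001405a50000003fbfede80000000000000)
noncomputable def Y0_5_4_5 : Nat := (nat_lit 0x3fe000000000000000000000000f78000000000000000000000003fe000000000000000000000000ff8000000000000000000000003fe000000000000400000000000b28000000000000000000000003de000000000000000000000000ff8000000000001000000000002ca000000000000000000000000f7800000000006a800000000003de000000000000000000000000ff8000000000000000000000003fe000000000000000000000000ff8000000000000000000000003de000000000000000000000000ff8000000000000000000000003fe000000000000000000000000f7800000000006a800000000003de000000000000000000000000ff8000000000001000000000002ca000000000000000000000000f7800000000006a800000000003de00000000000000000007fff71f8000002f4210100000017ac004a00000000000000000007ff731780000000021000000001fffdc7e0000002d000000000007fff7e00000000b400000000001fffdf800000002d00000)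
noncomputable def Y0_5_6_6 : Nat := (nat_lit 0x200880200000000000000000000802200800000000000000000000000000000000000000000000000000000000000000000000000000000000000000000000000000000000000000000000000000000000000000000000000000000001d02740800000020008000000007c09f020000000200080000000080220080000000000000000000000000000000000000000000000802200800000000000000000002008802000000100440100000008022008000000000000000000020088020000000000000000000000000000000000000000000000000000000000000000000000000000000000000000000000000007409d0200000008002000000001f027c08000000080020000000020088020000000000000000000080220080000000000000000000200880200000010044010000000802200800000000000001000800000802000000000000000000000000000000000000000000000000000000000000000000000000000000000000000000000000000000000000000000000001ec0780000740810000000008007f01e00001f02018020000008004002000002008000000000000010008000008020000000000000040020000020080000000000000100080000080208004000004010000000000000000000000000007b01e00001d0204000000002001fc07800007c0806008000002001000802008000000000000000000000000000000000000000000000000000000000000000000000000000000000000000000000000000000000000000000000000001ec0781d02000010000020000007f01e07c08000018020020000004002008020000000000000000010008020080000000000000000040020080200000000000000000100080200800008004010040000000000000000000000000000007b01e0740800004000008000001fc0781f0200000600800800000)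
noncomputable def Y0_5_7_7 : Nat := (nat_lit 0x15400000000000000000000000000000000000000000000000000154000000000000000000000000000000000000000000000000014140000000000000000000000000000000000000000000000000141400000000000000000000000000000000000000000000000001540000000000000000000000000000000000000000000000000015400000000000000)
noncomputable def Y0_5_8_8 : Nat := (nat_lit 0x8fdb6000000000020000000000000000000000000000000000000000000000000000000000000000306d80000000000000000000008fdb60000000000200000000000306d8000000000812400000000040920000000000000000000000306d80000000000000000000000000000000000000000000000000000000000000000000000000000000000000000000000000000000000000000000000000000000000000000000000000000000000000000000000000000000018300003600000000000000000070fc000d80000000400000000018300003600000000000000000060c0000d8000010200002400000000000000000000000000000000000000000000000000000000000000000000000000000000000000000000000000000000000000000000000000000000000000000000000000000000000000000001c3f000360000000100000000000000000000000000000000000000000000000000000000000000070fe3f60000000004008000000000000000000000000000000000000000000000000000000000001c3f8fd80000000010020000000000000000000000000000000000000000000000000000000)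
noncomputable def C0_5 : Cd := (Cd.mk (nat_lit 238) (nat_lit 4) (nat_lit 4369) SI0_5 SW0_5 RV0_5 CO0_5 (Sl.cons (Sd.mk (nat_lit 0) (nat_lit 0) (nat_lit 0) (nat_lit 16) (Sb.cons (nat_lit 4) (nat_lit 0) (nat_lit 5) (Sb.cons (nat_lit 8) (nat_lit 5) (nat_lit 3) (Sb.cons (nat_lit 12) (nat_lit 8) (nat_lit 8) Sb.nil))) (Bl.c Y0_5_1_0 (nat_lit 46) (nat_lit 1) Bl.nil)) (Sl.cons (Sd.mk (nat_lit 2) (nat_lit 0) (nat_lit 16) (nat_lit 23) (Sb.cons (nat_lit 4) (nat_lit 0) (nat_lit 2) (Sb.cons (nat_lit 8) (nat_lit 2) (nat_lit 5) (Sb.cons (nat_lit 12) (nat_lit 7) (nat_lit 16) Sb.nil))) (Bl.r Y0_5_1_0 (nat_lit 0) Bl.nil)) (Sl.cons (Sd.mk (nat_lit 4) (nat_lit 4) (nat_lit 39) (nat_lit 16) (Sb.cons (nat_lit 0) (nat_lit 0) (nat_lit 5) (Sb.cons (nat_lit 8) (nat_lit 5) (nat_lit 3) (Sb.cons (nat_lit 12) (nat_lit 8) (nat_lit 8) Sb.nil))) (Bl.r Y0_5_2_3 (nat_lit 3) Bl.nil)) (Sl.cons (Sd.mk (nat_lit 5) (nat_lit 4) (nat_lit 55) (nat_lit 29) (Sb.cons (nat_lit 0) (nat_lit 0) (nat_lit 2) (Sb.cons (nat_lit 8) (nat_lit 2) (nat_lit 4) (Sb.cons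 (nat_lit 12) (nat_lit 6) (nat_lit 23) Sb.nil))) (Bl.c Y0_5_2_3 (nat_lit 32) (nat_lit 2) Bl.nil)) (Sl.cons (Sd.mk (nat_lit 9) (nat_lit 8) (nat_lit 84) (nat_lit 29) (Sb.cons (nat_lit 0) (nat_lit 0) (nat_lit 2) (Sb.cons (nat_lit 4) (nat_lit 2) (nat_lit 4) (Sb.cons (nat_lit 12) (nat_lit 6) (nat_lit 23) Sb.nil))) (Bl.r Y0_5_4_5 (nat_lit 5) Bl.nil)) (Sl.cons (Sd.mk (nat_lit 10) (nat_lit 8) (nat_lit 113) (nat_lit 28) (Sb.cons (nat_lit 0) (nat_lit 0) (nat_lit 6) (Sb.cons (nat_lit 4) (nat_lit 6) (nat_lit 3) (Sb.cons (nat_lit 12) (nat_lit 9) (nat_lit 19) Sb.nil))) (Bl.c Y0_5_4_5 (nat_lit 58) (nat_lit 4) Bl.nil)) (Sl.cons (Sd.mk (nat_lit 12) (nat_lit 12) (nat_lit 141) (nat_lit 52) (Sb.cons (nat_lit 0) (nat_lit 0) (nat_lit 14) (Sb.cons (nat_lit 4) (nat_lit 14) (nat_lit 14) (Sb.cons (nat_lit 8) (nat_lit 28) (nat_lit 24) Sb.nil))) (Bl.r Y0_5_6_6 (nat_lit 6) (Bl.c Y0_5_6_6 (nat_lit 104) (nat_lit 6) Bl.nil))) (Sl.cons (Sd.mk (nat_lit 13) (nat_lit 12) (nat_lit 193) (nat_lit 12) (Sb.cons (nat_lit 0) (nat_lit 0) (nat_lit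 4) (Sb.cons (nat_lit 4) (nat_lit 4) (nat_lit 4) (Sb.cons (nat_lit 8) (nat_lit 8) (nat_lit 4) Sb.nil))) (Bl.r Y0_5_7_7 (nat_lit 7) (Bl.c Y0_5_7_7 (nat_lit 24) (nat_lit 7) Bl.nil))) (Sl.cons (Sd.mk (nat_lit 14) (nat_lit 12) (nat_lit 205) (nat_lit 33) (Sb.cons (nat_lit 0) (nat_lit 0) (nat_lit 6) (Sb.cons (nat_lit 4) (nat_lit 6) (nat_lit 13) (Sb.cons (nat_lit 8) (nat_lit 19) (nat_lit 14) Sb.nil))) (Bl.r Y0_5_8_8 (nat_lit 8) (Bl.c Y0_5_8_8 (nat_lit 66) (nat_lit 8) Bl.nil))) Sl.nil))))))))))
noncomputable def SI0_6 : Nat := (nat_lit 0x1004010040100400c0300c0300802008020080200802008020080200802004010040100401004010040100401004010040100401004000000000000000000000000000)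
noncomputable def SW0_6 : Nat := (nat_lit 0x3a01c00d802801200800d006400e00600a8060028013009005c02c011008003c01c005002000c06a03401980bc05c02a0130094056029014009c048023011008401a00c00100c806203001680b004001f00f002c002000)
noncomputable def RV0_6 : Nat := (nat_lit 0x8a08b18c01c08a02508a08618c01708a02008a06f08a05208a06208a04608a0c088a03588a02ea8601698202118c00908a00e08a00728600718200a10000288a03018c00408a00908a0ec18c03408a0d108a0e508a0db08a0d418c03108a0ce08a08408a07828602718203b08a07228602218203510000e18204110001708a07e08a0b918c02608a09508a0ae08a0a308a09c18c01f08a08e08a0b7a0401298201d)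
noncomputable def CO0_6 : Nat := (nat_lit 0x38ac50388c60388c50382c50380c60380c5034ac50349c50342c50341c5030b850309c50309850309830309810308c60308c50308850308830308810308800301c50300c60300c500bb8500bb0600bb0500b78500b74500b34500b30600b30500b2c500b24500b24300b24100b20500b20300b20100b200008a81008a800082c5003b85003b06003b05003785003745003345003306003305000b85000142000141)
noncomputable def Y0_6_1_0 : Nat := (nat_lit 0xe0000000000000000000000000200000000000000000000000000e0000000000000000000000000380000000000000000000000000e000000000000000000000000038000000000000000000000000080000000000000000000000000380000000000000000000000000e000000000000000000000000038000000000000800000000000000000000000000000000000000200000000000000000000000000e0000000000002000000000000000000000000000000000000000800000000000000000000000002800000000000000000000000bd8000000000000000000000003fe800000000017a00000000000ffe0000000000000)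
noncomputable def Y0_6_2_2 : Nat := (nat_lit 0x802000000000000000000000000000000000000000000000000000000000000000000000000000000000000000000000000000000000000000000000000000000000700800000000000000000000001d02000000000020000000000002008000000000000000000000000000000000000000000000000020080000000000000000000000080200000000004010000000000000000000000000000000000001c020000000000000000000000074080000000000800)
noncomputable def Y0_6_3_3 : Nat := (nat_lit 0x14000000000000000000000000000000000000000000000000000140000000000000)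
noncomputable def Y0_6_4_4 : Nat := (nat_lit 0xd80000000000000000000000000000000000000000000000000000000000000000000000000000036000000000000000000000000000000000000000000000000000000000000000000)
noncomputable def C0_6 : Cd := (Cd.mk (nat_lit 54) (nat_lit 6) (nat_lit 4101) SI0_6 SW0_6 RV0_6 CO0_6 (Sl.cons (Sd.mk (nat_lit 0) (nat_lit 0) (nat_lit 0) (nat_lit 11) (Sb.cons (nat_lit 0) (nat_lit 0) (nat_lit 3) (Sb.cons (nat_lit 12) (nat_lit 3) (nat_lit 8) Sb.nil)) (Bl.c Y0_6_1_0 (nat_lit 38) (nat_lit 1) Bl.nil)) (Sl.cons (Sd.mk (nat_lit 2) (nat_lit 0) (nat_lit 11) (nat_lit 19) (Sb.cons (nat_lit 0) (nat_lit 0) (nat_lit 3) (Sb.cons (nat_lit 12) (nat_lit 3) (nat_lit 16) Sb.nil)) (Bl.r Y0_6_1_0 (nat_lit 0) Bl.nil)) (Sl.cons (Sd.mk (nat_lit 12) (nat_lit 12) (nat_lit 30) (nat_lit 14) (Sb.cons (nat_lit 0) (nat_lit 0) (nat_lit 14) Sb.nil) (Bl.r Y0_6_2_2 (nat_lit 2) (Bl.c Y0_6_2_2 (nat_lit 28) (nat_lit 2) Bl.nil))) (Sl.cons (Sd.mk (nat_lit 13) (nat_lit 12) (nat_lit 44) (nat_lit 4) (Sb.cons (nat_lit 0) (nat_lit 0) (nat_lit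 4) Sb.nil) (Bl.r Y0_6_3_3 (nat_lit 3) (Bl.c Y0_6_3_3 (nat_lit 8) (nat_lit 3) Bl.nil))) (Sl.cons (Sd.mk (nat_lit 14) (nat_lit 12) (nat_lit 48) (nat_lit 6) (Sb.cons (nat_lit 0) (nat_lit 0) (nat_lit 6) Sb.nil) (Bl.r Y0_6_4_4 (nat_lit 4) (Bl.c Y0_6_4_4 (nat_lit 12) (nat_lit 4) Bl.nil))) Sl.nil))))))
noncomputable def CL0 : Cl := (Cl.cons C0_0 (Cl.cons C0_1 (Cl.cons C0_2 (Cl.cons C0_3 (Cl.cons C0_4 (Cl.cons C0_5 (Cl.cons C0_6 Cl.nil)))))))
noncomputable def ZL0_0 : Zl := (Zl.cons (nat_lit 0) (nat_lit 0) (nat_lit 0) (Zl.cons (nat_lit 21) (nat_lit 0) (nat_lit 13) (Zl.cons (nat_lit 12) (nat_lit 13) (nat_lit 8) (Zl.cons (nat_lit 17) (nat_lit 21) (nat_lit 6) (Zl.cons (nat_lit 0) (nat_lit 0) (nat_lit 0) (Zl.cons (nat_lit 39) (nat_lit 27) (nat_lit 16) (Zl.cons (nat_lit 0) (nat_lit 0) (nat_lit 0) Zl.nil)))))))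
noncomputable def ZZ0 : ZZ := (ZZ.cons ZL0_0 ZZ.nil)
noncomputable def SI1_0 : Nat := (nat_lit 0xc0300c0300c0300802008020040100400)
noncomputable def SW1_0 : Nat := (nat_lit 0x1a00c005801c0060020050018002000004802000a004)
noncomputable def RV1_0 : Nat := (nat_lit 0x18c00328600018200308a04908a00618200408a01d18200b08a01c08a01908a02518201008a04808a039)
noncomputable def CO1_0 : Nat := (nat_lit 0x2a80602a80302a80102a7450288850288810269c50265410249c50241c500aa0500aa0100a745002745)
noncomputable def Y1_0_1_0 : Nat := (nat_lit 0x200004000080000)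
noncomputable def Y1_0_2_3 : Nat := (nat_lit 0x64000c00007800050006000000001800030)
noncomputable def C1_0 : Cd := (Cd.mk (nat_lit 14) (nat_lit 5) (nat_lit 1025) SI1_0 SW1_0 RV1_0 CO1_0 (Sl.cons (Sd.mk (nat_lit 0) (nat_lit 0) (nat_lit 0) (nat_lit 1) (Sb.cons (nat_lit 8) (nat_lit 0) (nat_lit 1) Sb.nil) (Bl.c Y1_0_1_0 (nat_lit 6) (nat_lit 1) Bl.nil)) (Sl.cons (Sd.mk (nat_lit 2) (nat_lit 0) (nat_lit 1) (nat_lit 3) (Sb.cons (nat_lit 8) (nat_lit 0) (nat_lit 3) Sb.nil) (Bl.r Y1_0_1_0 (nat_lit 0) Bl.nil)) (Sl.cons (Sd.mk (nat_lit 9) (nat_lit 8) (nat_lit 4) (nat_lit 4) (Sb.cons (nat_lit 0) (nat_lit 0) (nat_lit 2) (Sb.cons (nat_lit 8) (nat_lit 2) (nat_lit 2) Sb.nil)) (Bl.r Y1_0_2_3 (nat_lit 3) Bl.nil)) (Sl.cons (Sd.mk (nat_lit 10) (nat_lit 8) (nat_lit 8) (nat_lit 6) (Sb.cons (nat_lit 0) (nat_lit 0) (nat_lit 2) (Sb.cons (nat_lit 8) (nat_lit 2) (nat_lit 4) Sb.nil)) (Bl.c Y1_0_2_3 (nat_lit 8) (nat_lit 2) Bl.nil)) Sl.nil)))))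
noncomputable def SI1_1 : Nat := (nat_lit 0x140501405010040100300c020080200802004010040000000)
noncomputable def SW1_1 : Nat := (nat_lit 0x9802800a004007803001200e005804801a0080010004022010001801c00c000)
noncomputable def RV1_1 : Nat := (nat_lit 0x20400608a00908a00710000220401208a01608a01a08a01f10000608a03408a03a20400020400218200108a02610000810000ba04009982006a0400c)
noncomputable def CO1_1 : Nat := (nat_lit 0x2a8020290c50288850288800265420255850251c5016645015680012b0501274501100201004201004100aa0500aa00008a80001102001101000142)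
noncomputable def Y1_1_1_0 : Nat := (nat_lit 0x2800000000400000000100000)
noncomputable def Y1_1_2_3 : Nat := (nat_lit 0x8000000002000000001000000000400000000080000)
noncomputable def Y1_1_4_5 : Nat := (nat_lit 0x3000000001200000000400000)
noncomputable def C1_1 : Cd := (Cd.mk (nat_lit 20) (nat_lit 6) (nat_lit 546) SI1_1 SW1_1 RV1_1 CO1_1 (Sl.cons (Sd.mk (nat_lit 0) (nat_lit 0) (nat_lit 0) (nat_lit 3) (Sb.cons (nat_lit 0) (nat_lit 0) (nat_lit 1) (Sb.cons (nat_lit 4) (nat_lit 1) (nat_lit 2) Sb.nil)) (Bl.c Y1_1_1_0 (nat_lit 6) (nat_lit 1) Bl.nil)) (Sl.cons (Sd.mk (nat_lit 2) (nat_lit 0) (nat_lit 3) (nat_lit 3) (Sb.cons (nat_lit 0) (nat_lit 0) (nat_lit 1) (Sb.cons (nat_lit 8) (nat_lit 1) (nat_lit 2) Sb.nil)) (Bl.r Y1_1_1_0 (nat_lit 0) Bl.nil)) (Sl.cons (Sd.mk (nat_lit 4) (nat_lit 4) (nat_lit 6) (nat_lit 5) (Sb.cons (nat_lit 0) (nat_lit 0) (nat_lit 2) (Sb.cons (nat_lit 4) (nat_lit 2) (nat_lit 1) (Sb.cons (nat_lit 8) (nat_lit 3) (nat_lit 2) Sb.nil))) (Bl.r Y1_1_2_3 (nat_lit 3) Bl.nil)) (Sl.cons (Sd.mk (nat_lit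 5) (nat_lit 4) (nat_lit 11) (nat_lit 2) (Sb.cons (nat_lit 4) (nat_lit 0) (nat_lit 1) (Sb.cons (nat_lit 8) (nat_lit 1) (nat_lit 1) Sb.nil)) (Bl.c Y1_1_2_3 (nat_lit 10) (nat_lit 2) Bl.nil)) (Sl.cons (Sd.mk (nat_lit 9) (nat_lit 8) (nat_lit 13) (nat_lit 3) (Sb.cons (nat_lit 4) (nat_lit 0) (nat_lit 2) (Sb.cons (nat_lit 8) (nat_lit 2) (nat_lit 1) Sb.nil)) (Bl.r Y1_1_4_5 (nat_lit 5) Bl.nil)) (Sl.cons (Sd.mk (nat_lit 10) (nat_lit 8) (nat_lit 16) (nat_lit 4) (Sb.cons (nat_lit 0) (nat_lit 0) (nat_lit 2) (Sb.cons (nat_lit 4) (nat_lit 2) (nat_lit 1) (Sb.cons (nat_lit 8) (nat_lit 3) (nat_lit 1) Sb.nil))) (Bl.c Y1_1_4_5 (nat_lit 6) (nat_lit 4) Bl.nil)) Sl.nil)))))))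
noncomputable def SI1_2 : Nat := (nat_lit 0x300c0300c0200802008020080100401004000000000000)
noncomputable def SW1_2 : Nat := (nat_lit 0x4801c008002004401a00c003800c004010005801800200f005002400a000)
noncomputable def RV1_2 : Nat := (nat_lit 0x18200f08a02208a02308a02108a03d18c00018200008a04008a00018200208a04a08a02b18201308a02a08a03c88a00e98200708a03e982008)
noncomputable def CO1_2 : Nat := (nat_lit 0x156810152c5014ac50142c5011785011006011001010b850100450100410097850092c5008a810082c5001785001105001101000b85000141)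
noncomputable def Y1_2_1_0 : Nat := (nat_lit 0x1000020000b800160001000020000b80012)
noncomputable def Y1_2_2_3 : Nat := (nat_lit 0xe0001c0003800000000e000000003800070001e0003c000380002)
noncomputable def C1_2 : Cd := (Cd.mk (nat_lit 19) (nat_lit 7) (nat_lit 67) SI1_2 SW1_2 RV1_2 CO1_2 (Sl.cons (Sd.mk (nat_lit 0) (nat_lit 0) (nat_lit 0) (nat_lit 5) (Sb.cons (nat_lit 0) (nat_lit 0) (nat_lit 2) (Sb.cons (nat_lit 4) (nat_lit 2) (nat_lit 3) Sb.nil)) (Bl.c Y1_2_1_0 (nat_lit 8) (nat_lit 1) Bl.nil)) (Sl.cons (Sd.mk (nat_lit 2) (nat_lit 0) (nat_lit 5) (nat_lit 4) (Sb.cons (nat_lit 0) (nat_lit 0) (nat_lit 2) (Sb.cons (nat_lit 4) (nat_lit 2) (nat_lit 2) Sb.nil)) (Bl.r Y1_2_1_0 (nat_lit 0) Bl.nil)) (Sl.cons (Sd.mk (nat_lit 4) (nat_lit 4) (nat_lit 9) (nat_lit 6) (Sb.cons (nat_lit 0) (nat_lit 0) (nat_lit 3) (Sb.cons (nat_lit 4) (nat_lit 3) (nat_lit 3) Sb.nil)) (Bl.r Y1_2_2_3 (nat_lit 3) Bl.nil)) (Sl.cons (Sd.mk (nat_lit 5) (nat_lit 4) (nat_lit 15) (nat_lit 4) (Sb.cons (nat_lit 0) (nat_lit 0) (nat_lit 2) (Sb.cons (nat_lit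 4) (nat_lit 2) (nat_lit 2) Sb.nil)) (Bl.c Y1_2_2_3 (nat_lit 12) (nat_lit 2) Bl.nil)) Sl.nil)))))
noncomputable def SI1_3 : Nat := (nat_lit 0)
noncomputable def SW1_3 : Nat := (nat_lit 0)
noncomputable def RV1_3 : Nat := (nat_lit 0x10000c)
noncomputable def CO1_3 : Nat := (nat_lit 0x8a80)
noncomputable def C1_3 : Cd := (Cd.mk (nat_lit 1) (nat_lit 8) (nat_lit 278) SI1_3 SW1_3 RV1_3 CO1_3 (Sl.cons (Sd.mk (nat_lit 2) (nat_lit 0) (nat_lit 0) (nat_lit 1) (Sb.cons (nat_lit 0) (nat_lit 0) (nat_lit 1) Sb.nil) Bl.nil) Sl.nil))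
noncomputable def C1_4 : Cd := (Cd.mk (nat_lit 0) (nat_lit 10) (nat_lit 10) (nat_lit 0) (nat_lit 0) (nat_lit 0) (nat_lit 0) Sl.nil)
noncomputable def SI1_5 : Nat := (nat_lit 0x1c0701c0701c0701c0701c0701c0701806018060180601806018060180601806018060180601405014050140501405014050140401004010040100400c0300c0300c0300c030080200802008020080200401004010040100401000000000000000)
noncomputable def SW1_5 : Nat := (nat_lit 0x5e02e012008c03a01c00a805001a00c002801005a02b01600a804402100d80680320130090044016009005000c004001026813008203f02000f8030010004001c00c04b02500f407801700b003c09204801d80e8072029010007c08e04601c00dc06c02800f000008a04401a80cc068027013009408604201900c406000e)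
noncomputable def RV1_5 : Nat := (nat_lit 0x8a02f08a00d08a02920400810000a10000108a02d08a00b08a02e08a00c08a02c08a00a88a015a0400b08a005204001a0400e20400488a00f98200910000088a01318c00208a00388a01498200a08a00488a01118c00108a00108a04d08a04508a04708a04320400720400508a04b18c00408a00818200510000308a01820401020401120400f08a01718200c08a01b10000710000508a01e18200d10000408a02408a02018200e08a04108a03508a03818c00608a03218c00708a03b20400308a04c08a04408a04608a04218201208a02718201110000908a03f08a03308a03618c00508a030a0400a)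
noncomputable def CO1_5 : Nat := (nat_lit 0x3aac503a8c503a64503a4420396800394800392c50390c5038ac50388c50382c50380c50329c50329020328c50328020325420324420315850315810314800311c50310c60310c50309c50309810308c50301c50300c60300c502bb8502bb0502b34502b30502b04202b0020297850290c60288850288810288800279850279020271420271020255850255810251c5017a80017a00017245017241017200016ac5016645016641013b85013b05013345013306013305012b0601274501004200bb8500bb0500b34500b30500b24100aa0500aa0100aa00003b85003b05003345003306003305001102)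
noncomputable def Y1_5_1_0 : Nat := (nat_lit 0x8000000002000040000800010000200004000d000000000200000001f00000)
noncomputable def Y1_5_2_3 : Nat := (nat_lit 0x600000000180000000060000000030000000006000000040000000019000000001980003)
noncomputable def Y1_5_4_5 : Nat := (nat_lit 0x800000003c00000000f000000003c0000003f0800e0000c00018001c000000)
noncomputable def Y1_5_6_6 : Nat := (nat_lit 0x820000400092000200000000000009200000000000000000000000040048000000000000000000000000900800000000000000000000000024800400000000000000100000000920000000)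
noncomputable def Y1_5_7_7 : Nat := (nat_lit 0x80000000000000000002a000000000000000080a00000000000000002000000000000000000280000000000000000028000000000000000)
noncomputable def C1_5 : Cd := (Cd.mk (nat_lit 78) (nat_lit 4) (nat_lit 4369) SI1_5 SW1_5 RV1_5 CO1_5 (Sl.cons (Sd.mk (nat_lit 0) (nat_lit 0) (nat_lit 0) (nat_lit 6) (Sb.cons (nat_lit 4) (nat_lit 0) (nat_lit 1) (Sb.cons (nat_lit 12) (nat_lit 1) (nat_lit 5) Sb.nil)) (Bl.c Y1_5_1_0 (nat_lit 16) (nat_lit 1) Bl.nil)) (Sl.cons (Sd.mk (nat_lit 2) (nat_lit 0) (nat_lit 6) (nat_lit 8) (Sb.cons (nat_lit 8) (nat_lit 0) (nat_lit 3) (Sb.cons (nat_lit 12) (nat_lit 3) (nat_lit 5) Sb.nil)) (Bl.r Y1_5_1_0 (nat_lit 0) Bl.nil)) (Sl.cons (Sd.mk (nat_lit 4) (nat_lit 4) (nat_lit 14) (nat_lit 8) (Sb.cons (nat_lit 0) (nat_lit 0) (nat_lit 1) (Sb.cons (nat_lit 8) (nat_lit 1) (nat_lit 2) (Sb.cons (nat_lit 12) (nat_lit 3) (nat_lit 5) Sb.nil))) (Bl.r Y1_5_2_3 (nat_lit 3) Bl.nil)) (Sl.cons (Sd.mk (nat_lit 5) (nat_lit 4) (nat_lit 22) (nat_lit 8) (Sb.cons (nat_lit 8) (nat_lit 0)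 (nat_lit 3) (Sb.cons (nat_lit 12) (nat_lit 3) (nat_lit 5) Sb.nil)) (Bl.c Y1_5_2_3 (nat_lit 16) (nat_lit 2) Bl.nil)) (Sl.cons (Sd.mk (nat_lit 9) (nat_lit 8) (nat_lit 30) (nat_lit 7) (Sb.cons (nat_lit 4) (nat_lit 0) (nat_lit 3) (Sb.cons (nat_lit 12) (nat_lit 3) (nat_lit 4) Sb.nil)) (Bl.r Y1_5_4_5 (nat_lit 5) Bl.nil)) (Sl.cons (Sd.mk (nat_lit 10) (nat_lit 8) (nat_lit 37) (nat_lit 11) (Sb.cons (nat_lit 0) (nat_lit 0) (nat_lit 3) (Sb.cons (nat_lit 4) (nat_lit 3) (nat_lit 2) (Sb.cons (nat_lit 12) (nat_lit 5) (nat_lit 6) Sb.nil))) (Bl.c Y1_5_4_5 (nat_lit 14) (nat_lit 4) Bl.nil)) (Sl.cons (Sd.mk (nat_lit 12) (nat_lit 12) (nat_lit 48) (nat_lit 18) (Sb.cons (nat_lit 0) (nat_lit 0) (nat_lit 6) (Sb.cons (nat_lit 4) (nat_lit 6) (nat_lit 6) (Sb.cons (nat_lit 8) (nat_lit 12) (nat_lit 6) Sb.nil))) (Bl.r Y1_5_6_6 (nat_lit 6) (Bl.c Y1_5_6_6 (nat_lit 36) (nat_lit 6) Bl.nil))) (Sl.cons (Sd.mk (nat_lit 14) (nat_lit 12) (nat_lit 66) (nat_lit 12) (Sb.cons (nat_lit 0) (nat_lit 0) (nat_lit 4) (Sb.cons (nat_lit 4) (nat_lit 4) (nat_lit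 4) (Sb.cons (nat_lit 8) (nat_lit 8) (nat_lit 4) Sb.nil))) (Bl.r Y1_5_7_7 (nat_lit 7) (Bl.c Y1_5_7_7 (nat_lit 24) (nat_lit 7) Bl.nil))) Sl.nil)))))))))
noncomputable def SI1_6 : Nat := (nat_lit 0x802008010040000000)
noncomputable def SW1_6 : Nat := (nat_lit 0x20008002007001801800a000)
noncomputable def RV1_6 : Nat := (nat_lit 0x88a01088a01208a00208a02810000d08a03708a031a0400d)
noncomputable def CO1_6 : Nat := (nat_lit 0x309850301c50300c500b245008a80003345003305000142)
noncomputable def Y1_6_1_0 : Nat := (nat_lit 0x200000000300000)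
noncomputable def Y1_6_2_2 : Nat := (nat_lit 0x200000)
noncomputable def C1_6 : Cd := (Cd.mk (nat_lit 8) (nat_lit 6) (nat_lit 4101) SI1_6 SW1_6 RV1_6 CO1_6 (Sl.cons (Sd.mk (nat_lit 0) (nat_lit 0) (nat_lit 0) (nat_lit 3) (Sb.cons (nat_lit 0) (nat_lit 0) (nat_lit 1) (Sb.cons (nat_lit 12) (nat_lit 1) (nat_lit 2) Sb.nil)) (Bl.c Y1_6_1_0 (nat_lit 4) (nat_lit 1) Bl.nil)) (Sl.cons (Sd.mk (nat_lit 2) (nat_lit 0) (nat_lit 3) (nat_lit 2) (Sb.cons (nat_lit 0) (nat_lit 0) (nat_lit 1) (Sb.cons (nat_lit 12) (nat_lit 1) (nat_lit 1) Sb.nil)) (Bl.r Y1_6_1_0 (nat_lit 0) Bl.nil)) (Sl.cons (Sd.mk (nat_lit 12) (nat_lit 12) (nat_lit 5) (nat_lit 3) (Sb.cons (nat_lit 0) (nat_lit 0) (nat_lit 3) Sb.nil) (Bl.r Y1_6_2_2 (nat_lit 2) (Bl.c Y1_6_2_2 (nat_lit 6) (nat_lit 2) Bl.nil))) Sl.nil))))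
noncomputable def CL1 : Cl := (Cl.cons C1_0 (Cl.cons C1_1 (Cl.cons C1_2 (Cl.cons C1_3 (Cl.cons C1_4 (Cl.cons C1_5 (Cl.cons C1_6 Cl.nil)))))))
noncomputable def AL1_0 : Nat := (nat_lit 0xdf17af)
noncomputable def A41_0 : Nat := (nat_lit 0xdd17a9)
noncomputable def IX1_0 : Nat := (nat_lit 0xd000000000000c0000000000000000000000000b000000000000a0000000000009000000000000000000000000080000000000000000000000000000000000000000000000000007000000000000000000000000060000000000005000000000000400000000000030000000000000000000000000200000000000000000000000001000000000000000000000000000000000000000)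
noncomputable def OL1_0 : Nat := (nat_lit 0x2e005800a001300240040006000a00120020003800500060000)
noncomputable def AL1_1 : Nat := (nat_lit 0x86553a218b72101a)
noncomputable def A41_1 : Nat := (nat_lit 0x864522218872101a)
noncomputable def IX1_1 : Nat := (nat_lit 0x13000000000000000000000000000000000000000000000000000000000000000120000000000011000000000000000000000000000000000000010000000000000000000000000000000000000000000000000000f0000000000000000000000000e00000000000000000000000000000000000000d000000000000000000000000000000000000000000000000000c000000000000000000000000000000000000000000000000000b0000000000000000000000000000000000000000000000000000000000000000a00000000000090000000000000000000000000000000000000000000000000008000000000000000000000000000000000000000000000000000000000000000070000000000006000000000000500000000000000000000000000000000000000400000000000000000000000000000000000000000000000000000000000000003000000000000000000000000000000000000000000000000000000000000000000000000000000000000000000000000000000020000000000001000000000000000000000000000000000000000)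
noncomputable def OL1_1 : Nat := (nat_lit 0x1f803a007200d80190030005a00a40128020003e006c00b001500280044006000400060004)
noncomputable def AL1_2 : Nat := (nat_lit 0x17ddeed)
noncomputable def A41_2 : Nat := (nat_lit 0x17ddeed)
noncomputable def IX1_2 : Nat := (nat_lit 0x12000000000000000000000000110000000000010000000000000f000000000000e000000000000d0000000000000000000000000c000000000000b000000000000a00000000000000000000000009000000000000800000000000070000000000006000000000000000000000000050000000000004000000000000300000000000000000000000002000000000000100000000000000000000000000)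
noncomputable def OL1_2 : Nat := (nat_lit 0x18002c005400a001300240040007800e0018002c0050009000e0018002800300040000)
noncomputable def AL1_3 : Nat := (nat_lit 0x4208)
noncomputable def A41_3 : Nat := (nat_lit 0x200)
noncomputable def IX1_3 : Nat := (nat_lit 0)
noncomputable def OL1_3 : Nat := (nat_lit 0x24)
noncomputable def AL1_4 : Nat := (nat_lit 0)
noncomputable def A41_4 : Nat := (nat_lit 0)
noncomputable def IX1_4 : Nat := (nat_lit 0)
noncomputable def OL1_4 : Nat := (nat_lit 0)
noncomputable def AL1_5 : Nat := (nat_lit 0x2b12546da0006f1364dc7b71f7a10b5c1280aaf06c0b7bfffb5e8958ff03)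
noncomputable def A41_5 : Nat := (nat_lit 0x2902106da000491104507a50f4a10b5810808ac0440a3a53d1528858a702)
noncomputable def IX1_5 : Nat := (nat_lit 0x4d0000000000000000000000004c00000000000000000000000000000000000004b000000000000000000000000000000000000000000000000000000000000000000000000000000000000000004a0000000000000000000000000000000000000000000000000000000000000004900000000000000000000000000000000000000000000000000000000000000000000000000004800000000000470000000000000000000000004600000000000450000000000000000000000004400000000000430000000000000000000000004200000000000000000000000000000000000000000000000000000000000000000000000000000000000000000000000000000000000000000000000000000000000000000000000000000000000000000000000000000000000000000000000004100000000000000000000000000000000000004000000000000000000000000000000000000003f000000000000000000000000000000000000000000000000003e000000000000000000000000000000000000000000000000003d000000000000000000000000000000000000000000000000000000000000000000000000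00003c000000000000000000000000000000000000000000000000003b0000000000000000000000003a00000000000000000000000000000000000000000000000000000000000000000000000000003900000000000380000000000037000000000003600000000000000000000000035000000000000000000000000000000000000034000000000000000000000000330000000000000000000000000000000000000000000000000000000000000003200000000000310000000000030000000000002f0000000000000000000000002e00000000000000000000000000000000000002d0000000000000000000000002c0000000000000000000000000000000000000000000000000000000000000002b0000000000000000000000000000000000000000000000000000000000000002a00000000000000000000000029000000000002800000000000000000000000027000000000000000000000000260000000000025000000000000000000000000000000000000000000000000000000000000000000000000000000000000000002400000000000000000000000000000000000000000000000000000000000000023000000000000000000000000000000000000000000000000000000000000000000000000000000000000000000000000000000220000000000000000000000000000000000000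000000000000021000000000000000000000000200000000000000000000000001f000000000001e0000000000000000000000000000000000000000000000000000000000000000000000000000000000000000000000000000001d000000000000000000000000000000000000000000000000001c000000000000000000000000000000000000000000000000000000000000000000000000000000000000000001b0000000000000000000000001a00000000000000000000000000000000000000000000000000190000000000018000000000001700000000000000000000000016000000000000000000000000000000000000015000000000000000000000000140000000000000000000000000000000000000130000000000012000000000001100000000000100000000000000000000000000f000000000000000000000000000000000000000000000000000e0000000000000000000000000d0000000000000000000000000c00000000000000000000000000000000000000b0000000000000000000000000a0000000000000000000000000000000000000000000000000009000000000000000000000000000000000000000000000000000000000000000080000000000000000000000000700000000000060000000000000000000000000000000000000000000000000005000000000000000000000000040000000000000000000000000000000000000030000000000002000000000000100000000000000000000000000000000000000000000000000000000000000000000000000000000000000000000000000000000)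
noncomputable def OL1_5 : Nat := (nat_lit 0x1da03ac07400e101b8035806a80d301a4034006780cd017c02ec05c00b4016002a805300a4013c027404e009b0132025804a008f011c0234046008a010e0214040007b00f201e003b007400e601b0033805f00b6016402b8056009c01280218041007a00f001d8039006c00d00188030005e00b80160028004c0090010801f0036005800a0013001e0034005000900100004)
noncomputable def AL1_6 : Nat := (nat_lit 0x623401215ea)
noncomputable def A41_6 : Nat := (nat_lit 0x2014010102a)
noncomputable def IX1_6 : Nat := (nat_lit 0x700000000000000000000000000000000000000000000000000000000000000000000000000000000000000000000000000000000000000000000600000000000000000000000005000000000000000000000000000000000000000000000000000000000000000000000000000000000000000000000000000000000000000000000000000000000400000000000000000000000000000000000000000000000000000000000000000000000000000000000000000000000000000003000000000000000000000000000000000000000000000000000000000000000000000000000000000000000000200000000000000000000000001000000000000000000000000000000000000000)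
noncomputable def OL1_6 : Nat := (nat_lit 0x148020003c0050006000500060004)
noncomputable def TL1 : Tl := (Tl.cons (Tr.mk AL1_0 A41_0 IX1_0 OL1_0) (Tl.cons (Tr.mk AL1_1 A41_1 IX1_1 OL1_1) (Tl.cons (Tr.mk AL1_2 A41_2 IX1_2 OL1_2) (Tl.cons (Tr.mk AL1_3 A41_3 IX1_3 OL1_3) (Tl.cons (Tr.mk AL1_4 A41_4 IX1_4 OL1_4) (Tl.cons (Tr.mk AL1_5 A41_5 IX1_5 OL1_5) (Tl.cons (Tr.mk AL1_6 A41_6 IX1_6 OL1_6) Tl.nil)))))))
noncomputable def ZL1_0 : Zl := (Zl.cons (nat_lit 0) (nat_lit 0) (nat_lit 14) (Zl.cons (nat_lit 0) (nat_lit 0) (nat_lit 20) (Zl.cons (nat_lit 0) (nat_lit 0) (nat_lit 19) (Zl.cons (nat_lit 0) (nat_lit 0) (nat_lit 1) (Zl.cons (nat_lit 0) (nat_lit 0) (nat_lit 0) (Zl.cons (nat_lit 0) (nat_lit 0) (nat_lit 78) (Zl.cons (nat_lit 0) (nat_lit 0) (nat_lit 8) Zl.nil)))))))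
noncomputable def ZZ1 : ZZ := (ZZ.cons ZL1_0 ZZ.nil)
noncomputable def C2_0 : Cd := (Cd.mk (nat_lit 0) (nat_lit 5) (nat_lit 1025) (nat_lit 0) (nat_lit 0) (nat_lit 0) (nat_lit 0) Sl.nil)
noncomputable def C2_1 : Cd := (Cd.mk (nat_lit 0) (nat_lit 6) (nat_lit 546) (nat_lit 0) (nat_lit 0) (nat_lit 0) (nat_lit 0) Sl.nil)
noncomputable def SI2_2 : Nat := (nat_lit 0x8020040100000)
noncomputable def SW2_2 : Nat := (nat_lit 0x60010028000008002)
noncomputable def RV2_2 : Nat := (nat_lit 0x8a00708a00008a00508a00488a00108a006)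
noncomputable def CO2_2 : Nat := (nat_lit 0x10b850100450092c50082c5001105000b85)
noncomputable def Y2_2_1_0 : Nat := (nat_lit 0x208)
noncomputable def C2_2 : Cd := (Cd.mk (nat_lit 6) (nat_lit 7) (nat_lit 67) SI2_2 SW2_2 RV2_2 CO2_2 (Sl.cons (Sd.mk (nat_lit 0) (nat_lit 0) (nat_lit 0) (nat_lit 2) (Sb.cons (nat_lit 0) (nat_lit 0) (nat_lit 1) (Sb.cons (nat_lit 4) (nat_lit 1) (nat_lit 1) Sb.nil)) (Bl.c Y2_2_1_0 (nat_lit 4) (nat_lit 1) Bl.nil)) (Sl.cons (Sd.mk (nat_lit 2) (nat_lit 0) (nat_lit 2) (nat_lit 2) (Sb.cons (nat_lit 0) (nat_lit 0) (nat_lit 1) (Sb.cons (nat_lit 4) (nat_lit 1) (nat_lit 1) Sb.nil)) (Bl.r Y2_2_1_0 (nat_lit 0) Bl.nil)) (Sl.cons (Sd.mk (nat_lit 4) (nat_lit 4) (nat_lit 4) (nat_lit 2) (Sb.cons (nat_lit 0) (nat_lit 0) (nat_lit 2) Sb.nil) Bl.nil) Sl.nil))))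
noncomputable def C2_3 : Cd := (Cd.mk (nat_lit 0) (nat_lit 8) (nat_lit 278) (nat_lit 0) (nat_lit 0) (nat_lit 0) (nat_lit 0) Sl.nil)
noncomputable def C2_4 : Cd := (Cd.mk (nat_lit 0) (nat_lit 10) (nat_lit 10) (nat_lit 0) (nat_lit 0) (nat_lit 0) (nat_lit 0) Sl.nil)
noncomputable def SI2_5 : Nat := (nat_lit 0x14050100400c0200400)
noncomputable def SW2_5 : Nat := (nat_lit 0x2801000e006001000c000001)
noncomputable def RV2_5 : Nat := (nat_lit 0xa0400520400020400320400208a00208a003204001a04004)
noncomputable def CO2_5 : Nat := (nat_lit 0x3290203280202b04202b002025585016645010042001102)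
noncomputable def Y2_5_1_2 : Nat := (nat_lit 0x8)
noncomputable def Y2_5_3_4 : Nat := (nat_lit 0x18)
noncomputable def C2_5 : Cd := (Cd.mk (nat_lit 8) (nat_lit 4) (nat_lit 4369) SI2_5 SW2_5 RV2_5 CO2_5 (Sl.cons (Sd.mk (nat_lit 0) (nat_lit 0) (nat_lit 0) (nat_lit 1) (Sb.cons (nat_lit 4) (nat_lit 0) (nat_lit 1) Sb.nil) Bl.nil) (Sl.cons (Sd.mk (nat_lit 4) (nat_lit 4) (nat_lit 1) (nat_lit 1) (Sb.cons (nat_lit 0) (nat_lit 0) (nat_lit 1) Sb.nil) (Bl.r Y2_5_1_2 (nat_lit 2) Bl.nil)) (Sl.cons (Sd.mk (nat_lit 5) (nat_lit 4) (nat_lit 2) (nat_lit 1) (Sb.cons (nat_lit 8) (nat_lit 0) (nat_lit 1) Sb.nil) (Bl.c Y2_5_1_2 (nat_lit 2) (nat_lit 1) Bl.nil)) (Sl.cons (Sd.mk (nat_lit 9) (nat_lit 8) (nat_lit 3) (nat_lit 1) (Sb.cons (nat_lit 4) (nat_lit 0) (nat_lit 1) Sb.nil) (Bl.r Y2_5_3_4 (nat_lit 4) Bl.nil)) (Sl.cons (Sd.mk (nat_lit 10) (nat_lit 8) (nat_lit 4) (nat_lit 2) (Sb.cons (nat_lit 12) (nat_lit 0) (nat_lit 2) Sb.nil) (Bl.c Y2_5_3_4 (nat_lit 2) (nat_lit 3) Bl.nil)) (Sl.cons (Sd.mk (nat_lit 12) (nat_lit 12) (nat_lit 6)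 (nat_lit 2) (Sb.cons (nat_lit 8) (nat_lit 0) (nat_lit 2) Sb.nil) Bl.nil) Sl.nil)))))))
noncomputable def C2_6 : Cd := (Cd.mk (nat_lit 0) (nat_lit 6) (nat_lit 4101) (nat_lit 0) (nat_lit 0) (nat_lit 0) (nat_lit 0) Sl.nil)
noncomputable def CL2 : Cl := (Cl.cons C2_0 (Cl.cons C2_1 (Cl.cons C2_2 (Cl.cons C2_3 (Cl.cons C2_4 (Cl.cons C2_5 (Cl.cons C2_6 Cl.nil)))))))
noncomputable def AL2_0 : Nat := (nat_lit 0x35d5)
noncomputable def A42_0 : Nat := (nat_lit 0)
noncomputable def IX2_0 : Nat := (nat_lit 0)
noncomputable def OL2_0 : Nat := (nat_lit 0)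
noncomputable def AL2_1 : Nat := (nat_lit 0)
noncomputable def A42_1 : Nat := (nat_lit 0)
noncomputable def IX2_1 : Nat := (nat_lit 0)
noncomputable def OL2_1 : Nat := (nat_lit 0)
noncomputable def AL2_2 : Nat := (nat_lit 0x7cffe)
noncomputable def A42_2 : Nat := (nat_lit 0xcaa)
noncomputable def IX2_2 : Nat := (nat_lit 0x500000000000040000000000000000000000000000000000000030000000000000000000000000200000000000000000000000001000000000000000000000000000000000000000)
noncomputable def OL2_2 : Nat := (nat_lit 0x160028003800500060004)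
noncomputable def AL2_3 : Nat := (nat_lit 0)
noncomputable def A42_3 : Nat := (nat_lit 0)
noncomputable def IX2_3 : Nat := (nat_lit 0)
noncomputable def OL2_3 : Nat := (nat_lit 0)
noncomputable def AL2_4 : Nat := (nat_lit 0)
noncomputable def A42_4 : Nat := (nat_lit 0)
noncomputable def IX2_4 : Nat := (nat_lit 0)
noncomputable def OL2_4 : Nat := (nat_lit 0)
noncomputable def AL2_5 : Nat := (nat_lit 0x1c0381c0180c04e01)
noncomputable def A42_5 : Nat := (nat_lit 0x140000c0100804001)
noncomputable def IX2_5 : Nat := (nat_lit 0x70000000000000000000000000600000000000000000000000000000000000000000000000000000000000000000000000000000000000000000000000000000000000000000000000000000000000000000000000000000000000000000000000000000000000000000000000000000000000000000000000000000000000000000000000000000050000000000004000000000000000000000000000000000000000000000000000000000000000000000000000000000000000000000000000000000000000000000000000000000300000000000000000000000000000000000000000000000000000000000000000000000000000000000000000000000000000000000000000000200000000000000000000000000000000000000000000000000000000000000000000000000000000000000000000000000000000000000000000100000000000000000000000000000000000000000000000000000000000000000000000000000000000000000000000000000000000000000000000000000000000000000000000000000000000000000000000000000000000000)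
noncomputable def OL2_5 : Nat := (nat_lit 0x20003e005600a80100017001c0000)
noncomputable def AL2_6 : Nat := (nat_lit 0)
noncomputable def A42_6 : Nat := (nat_lit 0)
noncomputable def IX2_6 : Nat := (nat_lit 0)
noncomputable def OL2_6 : Nat := (nat_lit 0)
noncomputable def TL2 : Tl := (Tl.cons (Tr.mk AL2_0 A42_0 IX2_0 OL2_0) (Tl.cons (Tr.mk AL2_1 A42_1 IX2_1 OL2_1) (Tl.cons (Tr.mk AL2_2 A42_2 IX2_2 OL2_2) (Tl.cons (Tr.mk AL2_3 A42_3 IX2_3 OL2_3) (Tl.cons (Tr.mk AL2_4 A42_4 IX2_4 OL2_4) (Tl.cons (Tr.mk AL2_5 A42_5 IX2_5 OL2_5) (Tl.cons (Tr.mk AL2_6 A42_6 IX2_6 OL2_6) Tl.nil)))))))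
noncomputable def ZL2_0 : Zl := (Zl.cons (nat_lit 0) (nat_lit 0) (nat_lit 0) (Zl.cons (nat_lit 0) (nat_lit 0) (nat_lit 0) (Zl.cons (nat_lit 4) (nat_lit 0) (nat_lit 2) (Zl.cons (nat_lit 0) (nat_lit 0) (nat_lit 0) (Zl.cons (nat_lit 0) (nat_lit 0) (nat_lit 0) (Zl.cons (nat_lit 1) (nat_lit 2) (nat_lit 1) (Zl.cons (nat_lit 0) (nat_lit 0) (nat_lit 0) Zl.nil)))))))
noncomputable def ZZ2 : ZZ := (ZZ.cons ZL2_0 ZZ.nil)
def wf0_0 : wfC (nat_lit 53) (nat_lit 2) C0_0 = true := by decide +kernel
def pl0_0 : plCk (nat_lit 53) (nat_lit 2) (nat_lit 11) (nat_lit 0) (nat_lit 0) (nat_lit 7) (nat_lit 7) (nat_lit 4) (nat_lit 0) nl0 CL0 = true := by decide +kernel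
def wf0_1 : wfC (nat_lit 53) (nat_lit 2) C0_1 = true := by decide +kernel
def pl0_1 : plCk (nat_lit 53) (nat_lit 2) (nat_lit 11) (nat_lit 0) (nat_lit 0) (nat_lit 7) (nat_lit 7) (nat_lit 4) (nat_lit 1) nl0 CL0 = true := by decide +kernel
def wf0_2 : wfC (nat_lit 53) (nat_lit 2) C0_2 = true := by decide +kernel
def pl0_2 : plCk (nat_lit 53) (nat_lit 2) (nat_lit 11) (nat_lit 0) (nat_lit 0) (nat_lit 7) (nat_lit 7) (nat_lit 4) (nat_lit 2) nl0 CL0 = true := by decide +kernel
def wf0_3 : wfC (nat_lit 53) (nat_lit 2) C0_3 = true := by decide +kernel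
def pl0_3 : plCk (nat_lit 53) (nat_lit 2) (nat_lit 11) (nat_lit 0) (nat_lit 0) (nat_lit 7) (nat_lit 7) (nat_lit 4) (nat_lit 3) nl0 CL0 = true := by decide +kernel
def wf0_4 : wfC (nat_lit 53) (nat_lit 2) C0_4 = true := by decide +kernel
def pl0_4 : plCk (nat_lit 53) (nat_lit 2) (nat_lit 11) (nat_lit 0) (nat_lit 0) (nat_lit 7) (nat_lit 7) (nat_lit 4) (nat_lit 4) nl0 CL0 = true := by decide +kernel
def wf0_5 : wfC (nat_lit 53) (nat_lit 2) C0_5 = true := by decide +kernel
def pl0_5 : plCk (nat_lit 53) (nat_lit 2) (nat_lit 11) (nat_lit 0) (nat_lit 0) (nat_lit 7) (nat_lit 7) (nat_lit 4) (nat_lit 5) nl0 CL0 = true := by decide +kernel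
def wf0_6 : wfC (nat_lit 53) (nat_lit 2) C0_6 = true := by decide +kernel
def pl0_6 : plCk (nat_lit 53) (nat_lit 2) (nat_lit 11) (nat_lit 0) (nat_lit 0) (nat_lit 7) (nat_lit 7) (nat_lit 4) (nat_lit 6) nl0 CL0 = true := by decide +kernel
def ti0_0 : tileCk (nat_lit 53) (nat_lit 2) (nat_lit 1) (nat_lit 1) (nat_lit 43) (nat_lit 11) (nat_lit 7) ZL0_0 CL0 = true := by decide +kernel
def zl0_0 : zlOK (nat_lit 43) ZL0_0 = true := by decide +kernel
def tc0_0 : tiCov (nat_lit 1) (nat_lit 0) ZZ0 C0_0 = true := by decide +kernel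
def tc0_1 : tiCov (nat_lit 1) (nat_lit 1) ZZ0 C0_1 = true := by decide +kernel
def tc0_2 : tiCov (nat_lit 1) (nat_lit 2) ZZ0 C0_2 = true := by decide +kernel
def tc0_3 : tiCov (nat_lit 1) (nat_lit 3) ZZ0 C0_3 = true := by decide +kernel
def tc0_4 : tiCov (nat_lit 1) (nat_lit 4) ZZ0 C0_4 = true := by decide +kernel
def tc0_5 : tiCov (nat_lit 1) (nat_lit 5) ZZ0 C0_5 = true := by decide +kernel
def tc0_6 : tiCov (nat_lit 1) (nat_lit 6) ZZ0 C0_6 = true := by decide +kernel
def wf1_0 : wfC (nat_lit 19) (nat_lit 2) C1_0 = true := by decide +kernel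
def rf1_0 : rfCk (nat_lit 53) (nat_lit 2) (nat_lit 19) (nat_lit 2) (nat_lit 9) (nat_lit 0) (nat_lit 0) TL1 CL0 CL1 = true := by decide +kernel
def st1_0_0 : starCk (nat_lit 19) (nat_lit 2) (nat_lit 1) (nat_lit 1) (nat_lit 3) (nat_lit 1) (nat_lit 1) C1_0 = true := by decide +kernel
def sc1_0 : stCov (nat_lit 0) (nat_lit 1) (Rl.cons (nat_lit 1) (nat_lit 3) Rl.nil) C1_0 = true := by decide +kernel
def wf1_1 : wfC (nat_lit 19) (nat_lit 2) C1_1 = true := by decide +kernel
def rf1_1 : rfCk (nat_lit 53) (nat_lit 2) (nat_lit 19) (nat_lit 2) (nat_lit 9) (nat_lit 0) (nat_lit 1) TL1 CL0 CL1 = true := by decide +kernel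
def st1_1_0 : starCk (nat_lit 19) (nat_lit 2) (nat_lit 1) (nat_lit 1) (nat_lit 3) (nat_lit 3) (nat_lit 1) C1_1 = true := by decide +kernel
def sc1_1 : stCov (nat_lit 0) (nat_lit 3) (Rl.cons (nat_lit 3) (nat_lit 3) Rl.nil) C1_1 = true := by decide +kernel
def wf1_2 : wfC (nat_lit 19) (nat_lit 2) C1_2 = true := by decide +kernel
def rf1_2 : rfCk (nat_lit 53) (nat_lit 2) (nat_lit 19) (nat_lit 2) (nat_lit 9) (nat_lit 0) (nat_lit 2) TL1 CL0 CL1 = true := by decide +kernel
def st1_2_0 : starCk (nat_lit 19) (nat_lit 2) (nat_lit 1) (nat_lit 1) (nat_lit 4) (nat_lit 5) (nat_lit 1) C1_2 = true := by decide +kernel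
def sc1_2 : stCov (nat_lit 0) (nat_lit 5) (Rl.cons (nat_lit 5) (nat_lit 4) Rl.nil) C1_2 = true := by decide +kernel
def wf1_3 : wfC (nat_lit 19) (nat_lit 2) C1_3 = true := by decide +kernel
def rf1_3 : rfCk (nat_lit 53) (nat_lit 2) (nat_lit 19) (nat_lit 2) (nat_lit 9) (nat_lit 0) (nat_lit 3) TL1 CL0 CL1 = true := by decide +kernel
def sc1_3 : stCov (nat_lit 1) (nat_lit 0) Rl.nil C1_3 = true := by decide +kernel
def wf1_5 : wfC (nat_lit 19) (nat_lit 2) C1_5 = true := by decide +kernel
def rf1_5 : rfCk (nat_lit 53) (nat_lit 2) (nat_lit 19) (nat_lit 2) (nat_lit 9) (nat_lit 0) (nat_lit 5) TL1 CL0 CL1 = true := by decide +kernel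
def st1_5_0 : starCk (nat_lit 19) (nat_lit 2) (nat_lit 1) (nat_lit 1) (nat_lit 7) (nat_lit 30) (nat_lit 256) C1_5 = true := by decide +kernel
def sc1_5 : stCov (nat_lit 2) (nat_lit 30) (Rl.cons (nat_lit 30) (nat_lit 7) Rl.nil) C1_5 = true := by decide +kernel
def wf1_6 : wfC (nat_lit 19) (nat_lit 2) C1_6 = true := by decide +kernel
def rf1_6 : rfCk (nat_lit 53) (nat_lit 2) (nat_lit 19) (nat_lit 2) (nat_lit 9) (nat_lit 0) (nat_lit 6) TL1 CL0 CL1 = true := by decide +kernel
def st1_6_0 : starCk (nat_lit 19) (nat_lit 2) (nat_lit 1) (nat_lit 1) (nat_lit 3) (nat_lit 5) (nat_lit 4096) C1_6 = true := by decide +kernel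
def sc1_6 : stCov (nat_lit 3) (nat_lit 5) (Rl.cons (nat_lit 5) (nat_lit 3) Rl.nil) C1_6 = true := by decide +kernel
def wf2_2 : wfC (nat_lit 3) (nat_lit 2) C2_2 = true := by decide +kernel
def rf2_2 : rfCk (nat_lit 19) (nat_lit 2) (nat_lit 3) (nat_lit 2) (nat_lit 9) (nat_lit 0) (nat_lit 2) TL2 CL1 CL2 = true := by decide +kernel
def wf2_5 : wfC (nat_lit 3) (nat_lit 2) C2_5 = true := by decide +kernel
def rf2_5 : rfCk (nat_lit 19) (nat_lit 2) (nat_lit 3) (nat_lit 2) (nat_lit 9) (nat_lit 0) (nat_lit 5) TL2 CL1 CL2 = true := by decide +kernel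
def ti2_0 : tileCk (nat_lit 3) (nat_lit 2) (nat_lit 1) (nat_lit 1) (nat_lit 3) (nat_lit 11) (nat_lit 7) ZL2_0 CL2 = true := by decide +kernel
def zl2_0 : zlOK (nat_lit 3) ZL2_0 = true := by decide +kernel
def tc2_2 : tiCov (nat_lit 1) (nat_lit 2) ZZ2 C2_2 = true := by decide +kernel
def tc2_5 : tiCov (nat_lit 1) (nat_lit 5) ZZ2 C2_5 = true := by decide +kernel
def de2_2 : deadCk (nat_lit 3) (nat_lit 2) C2_2 = true := by decide +kernel
def de2_5 : deadCk (nat_lit 3) (nat_lit 2) C2_5 = true := by decide +kernel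
def sc0_0 : stCov (nat_lit 0) (nat_lit 0) (Rl.cons (nat_lit 0) (nat_lit 24) Rl.nil) C0_0 = true := by decide +kernel
def sc0_1 : stCov (nat_lit 0) (nat_lit 0) (Rl.cons (nat_lit 0) (nat_lit 66) Rl.nil) C0_1 = true := by decide +kernel
def sc0_2 : stCov (nat_lit 0) (nat_lit 0) (Rl.cons (nat_lit 0) (nat_lit 25) Rl.nil) C0_2 = true := by decide +kernel
def sc0_3 : stCov (nat_lit 0) (nat_lit 0) (Rl.cons (nat_lit 0) (nat_lit 41) Rl.nil) C0_3 = true := by decide +kernel
def sc0_4 : stCov (nat_lit 0) (nat_lit 0) (Rl.cons (nat_lit 0) (nat_lit 2) Rl.nil) C0_4 = true := by decide +kernel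
def sc0_5 : stCov (nat_lit 0) (nat_lit 0) (Rl.cons (nat_lit 0) (nat_lit 238) Rl.nil) C0_5 = true := by decide +kernel
def sc0_6 : stCov (nat_lit 0) (nat_lit 0) (Rl.cons (nat_lit 0) (nat_lit 54) Rl.nil) C0_6 = true := by decide +kernel
def wf1_4 : wfC (nat_lit 19) (nat_lit 2) C1_4 = true := by decide +kernel
def rf1_4 : rfCk (nat_lit 53) (nat_lit 2) (nat_lit 19) (nat_lit 2) (nat_lit 9) (nat_lit 0) (nat_lit 4) TL1 CL0 CL1 = true := by decide +kernel
def zl1_0 : zlOK (nat_lit 78) ZL1_0 = true := by decide +kernel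
def sc1_4 : stCov (nat_lit 0) (nat_lit 0) Rl.nil C1_4 = true := by decide +kernel
def tc1_0 : tiCov (nat_lit 1) (nat_lit 0) ZZ1 C1_0 = true := by decide +kernel
def tc1_1 : tiCov (nat_lit 1) (nat_lit 1) ZZ1 C1_1 = true := by decide +kernel
def tc1_2 : tiCov (nat_lit 1) (nat_lit 2) ZZ1 C1_2 = true := by decide +kernel
def tc1_3 : tiCov (nat_lit 1) (nat_lit 3) ZZ1 C1_3 = true := by decide +kernel
def tc1_4 : tiCov (nat_lit 1) (nat_lit 4) ZZ1 C1_4 = true := by decide +kernel
def tc1_5 : tiCov (nat_lit 1) (nat_lit 5) ZZ1 C1_5 = true := by decide +kernel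
def tc1_6 : tiCov (nat_lit 1) (nat_lit 6) ZZ1 C1_6 = true := by decide +kernel
def wf2_0 : wfC (nat_lit 3) (nat_lit 2) C2_0 = true := by decide +kernel
def wf2_1 : wfC (nat_lit 3) (nat_lit 2) C2_1 = true := by decide +kernel
def wf2_3 : wfC (nat_lit 3) (nat_lit 2) C2_3 = true := by decide +kernel
def wf2_4 : wfC (nat_lit 3) (nat_lit 2) C2_4 = true := by decide +kernel
def wf2_6 : wfC (nat_lit 3) (nat_lit 2) C2_6 = true := by decide +kernel
def rf2_0 : rfCk (nat_lit 19) (nat_lit 2) (nat_lit 3) (nat_lit 2) (nat_lit 9) (nat_lit 0) (nat_lit 0) TL2 CL1 CL2 = true := by decide +kernel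
def rf2_1 : rfCk (nat_lit 19) (nat_lit 2) (nat_lit 3) (nat_lit 2) (nat_lit 9) (nat_lit 0) (nat_lit 1) TL2 CL1 CL2 = true := by decide +kernel
def rf2_3 : rfCk (nat_lit 19) (nat_lit 2) (nat_lit 3) (nat_lit 2) (nat_lit 9) (nat_lit 0) (nat_lit 3) TL2 CL1 CL2 = true := by decide +kernel
def rf2_4 : rfCk (nat_lit 19) (nat_lit 2) (nat_lit 3) (nat_lit 2) (nat_lit 9) (nat_lit 0) (nat_lit 4) TL2 CL1 CL2 = true := by decide +kernel
def rf2_6 : rfCk (nat_lit 19) (nat_lit 2) (nat_lit 3) (nat_lit 2) (nat_lit 9) (nat_lit 0) (nat_lit 6) TL2 CL1 CL2 = true := by decide +kernel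
def sc2_0 : stCov (nat_lit 0) (nat_lit 0) Rl.nil C2_0 = true := by decide +kernel
def sc2_1 : stCov (nat_lit 0) (nat_lit 0) Rl.nil C2_1 = true := by decide +kernel
def sc2_2 : stCov (nat_lit 0) (nat_lit 0) (Rl.cons (nat_lit 0) (nat_lit 6) Rl.nil) C2_2 = true := by decide +kernel
def sc2_3 : stCov (nat_lit 0) (nat_lit 0) Rl.nil C2_3 = true := by decide +kernel
def sc2_4 : stCov (nat_lit 0) (nat_lit 0) Rl.nil C2_4 = true := by decide +kernel
def sc2_5 : stCov (nat_lit 0) (nat_lit 0) (Rl.cons (nat_lit 0) (nat_lit 8) Rl.nil) C2_5 = true := by decide +kernel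
def sc2_6 : stCov (nat_lit 0) (nat_lit 0) Rl.nil C2_6 = true := by decide +kernel
def tc2_0 : tiCov (nat_lit 1) (nat_lit 0) ZZ2 C2_0 = true := by decide +kernel
def tc2_1 : tiCov (nat_lit 1) (nat_lit 1) ZZ2 C2_1 = true := by decide +kernel
def tc2_3 : tiCov (nat_lit 1) (nat_lit 3) ZZ2 C2_3 = true := by decide +kernel
def tc2_4 : tiCov (nat_lit 1) (nat_lit 4) ZZ2 C2_4 = true := by decide +kernel
def tc2_6 : tiCov (nat_lit 1) (nat_lit 6) ZZ2 C2_6 = true := by decide +kernel
def de2_0 : deadCk (nat_lit 3) (nat_lit 2) C2_0 = true := by decide +kernel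
def de2_1 : deadCk (nat_lit 3) (nat_lit 2) C2_1 = true := by decide +kernel
def de2_3 : deadCk (nat_lit 3) (nat_lit 2) C2_3 = true := by decide +kernel
def de2_4 : deadCk (nat_lit 3) (nat_lit 2) C2_4 = true := by decide +kernel
def de2_6 : deadCk (nat_lit 3) (nat_lit 2) C2_6 = true := by decide +kernel

end Pool.Agent.NNr.R11_4_7_9
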